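import Pool.Agent.Lib.MP_0a3911_co.RG.Latin

/-!
# Main statements on row groups
-/

set_option autoImplicit false

namespace Pool.Agent.Lib.MP_0a3911_co.RG

open Finset

variable {n : ℕ} {L : Fin n → Fin n → Fin n}

theorem nrm_of_normalizer (hr : ∀ i, Function.Injective (L i)) {R : Subgroup (Equiv.Perm (Fin n))}
    (hR : rowGroup L ≤ Subgroup.normalizer (R : Set (Equiv.Perm (Fin n)))) (i0 : Fin n) :
    Nrm (fam hr i0) R := by
  intro i σ hσ
  exact (Subgroup.mem_normalizer_iff.1 (hR (fam_mem hr i0 i)) σ).1 hσ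

theorem orbit_pow (hr : ∀ i, Function.Injective (L i)) {i0 : Fin n}
    (hU : UF (fam hr i0) i0 1) (R : Subgroup (Equiv.Perm (Fin n)))
    (hR : rowGroup L ≤ Subgroup.normalizer (R : Set (Equiv.Perm (Fin n))))
    (hS : Group.IsSolvable R ∨ Separable3 R) (c : Fin n) :
    ∃ e : ℕ, Nat.card (MulAction.orbit R c) = 3 ^ e := by
  have hN := nrm_of_normalizer hr hR i0
  have hG : UF.Good R := by
    rcases hS with hS | hS
    · exact hU.good_of_solvable hN hS
    · exact hU.good_of_sep hN (sep_of_separable3 hS)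
  obtain ⟨e, he⟩ := hG c
  exact ⟨e, by rw [← UF.cls_orbit]; exact he⟩

/-- the row group is transitive. -/
theorem orbit_rowGroup (hr : ∀ i, Function.Injective (L i)) {i0 : Fin n}
    (hU : UF (fam hr i0) i0 1) (c : Fin n) :
    Nat.card (MulAction.orbit (rowGroup L) c) = n := by
  have h1 : MulAction.orbit (rowGroup L) c = Set.univ := by
    rw [Set.eq_univ_iff_forall]
    intro d
    obtain ⟨i, hi⟩ := hU.trans c d
    exact ⟨⟨fam hr i0 i, fam_mem hr i0 i⟩, hi⟩
  rw [h1, Nat.card_congr (Equiv.Set.univ (Fin n)), Nat.card_fin]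

theorem order_pow (hr : ∀ i, Function.Injective (L i)) {i0 : Fin n}
    (hU : UF (fam hr i0) i0 1)
    (hS : Group.IsSolvable (rowGroup L) ∨ Separable3 (rowGroup L)) : ∃ e : ℕ, n = 3 ^ e := by
  obtain ⟨e, he⟩ := orbit_pow hr hU (rowGroup L) Subgroup.le_normalizer hS i0
  exact ⟨e, by rw [← he, orbit_rowGroup hr hU]⟩

theorem cls_bot (x : Fin n) : UF.cls (⊥ : Setoid (Fin n)) x = 1 := by
  classical
  unfold UF.cls
  rw [Finset.card_eq_one]
  refine ⟨x, ?_⟩
  ext z
  simp

theorem cls_top (x : Fin n) : UF.cls (⊤ : Setoid (Fin n)) x = n := by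
  classical
  unfold UF.cls
  have h1 : (univ.filter (fun z => (⊤ : Setoid (Fin n)) z x)) = univ := by
    ext z
    simp [Setoid.top_def]
  rw [h1, Finset.card_univ, Fintype.card_fin]

theorem cls_card (r : Setoid (Fin n)) (x : Fin n) :
    UF.cls r x = Nat.card {y : Fin n // r y x} := by
  classical
  unfold UF.cls
  rw [Nat.card_eq_fintype_card, Fintype.card_subtype]

/-- invariant partitions. -/
theorem partition (hn : 0 < n) (hr : ∀ i, Function.Injective (L i))
    (hcol : ∀ j, Function.Injective (fun i => L i j)) (hP : Pr L) (r : Setoid (Fin n))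
    (hinv : ∀ τ ∈ rowGroup L, ∀ x y, r x y → r (τ x) (τ y)) :
    ∃ b m : ℕ, n = m * b ∧ (∀ x, Nat.card {y : Fin n // r y x} = b) ∧
      (b = 1 ∨ b % 6 = 3) ∧ (m = 1 ∨ m % 6 = 3) := by
  have x0 : Fin n := ⟨0, hn⟩
  have hU := uf_of_pr hr hcol hP x0
  have hi : ∀ i x y, r x y → r (fam hr x0 i x) (fam hr x0 i y) :=
    fun i x y h => hinv _ (fam_mem hr x0 i) x y h
  obtain ⟨m1, hm1, e1⟩ := hU.pair (r1 := ⊥) (r2 := r)
    (by intro x y h; rw [Setoid.bot_def] at h; rw [h])
    (by intro i x y h; rw [Setoid.bot_def] at h; rw [h]) hi x0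
  obtain ⟨m2, hm2, e2⟩ := hU.pair (r1 := r) (r2 := ⊤)
    (by intro x y _; exact trivial) hi
    (by intro i x y _; exact trivial) x0
  rw [cls_bot, mul_one] at e1
  rw [cls_top, e1] at e2
  have hodd := odd_of_pr hr hcol hP x0
  have h1 : m1 % 2 = 1 := by
    rcases Nat.even_or_odd m1 with h | h
    · have h2 : Even (m2 * m1) := h.mul_left m2
      rw [← e2] at h2
      rw [Nat.even_iff] at h2
      omega
    · exact Nat.odd_iff.1 h
  have h2 : m2 % 2 = 1 := by
    rcases Nat.even_or_odd m2 with h | h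
    · have h2 : Even (m2 * m1) := h.mul_right m1
      rw [← e2] at h2
      rw [Nat.even_iff] at h2
      omega
    · exact Nat.odd_iff.1 h
  refine ⟨m1, m2, e2, fun x => ?_, ?_, ?_⟩
  · rw [← cls_card, hU.cls_eq hi x x0, e1]
  · rcases hm1 with h | h
    · exact Or.inl h
    · right
      omega
  · rcases hm2 with h | h
    · exact Or.inl h
    · right
      omega

/-- for `9 ∤ n` only the two trivial partitions are invariant. -/
theorem partition_trivial (hn : 0 < n) (hr : ∀ i, Function.Injective (L i))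
    (hcol : ∀ j, Function.Injective (fun i => L i j)) (hP : Pr L) (r : Setoid (Fin n))
    (hinv : ∀ τ ∈ rowGroup L, ∀ x y, r x y → r (τ x) (τ y)) (h9 : ¬ 9 ∣ n) :
    r = ⊥ ∨ r = ⊤ := by
  classical
  obtain ⟨b, m, hbm, hc, hb, hm⟩ := partition hn hr hcol hP r hinv
  rcases hb with hb | hb
  · left
    ext x y
    rw [Setoid.bot_def]
    constructor
    · intro h
      have h1 := hc y
      rw [hb, Nat.card_eq_one_iff_unique] at h1
      have h2 := h1.1.elim ⟨x, h⟩ ⟨y, r.refl y⟩
      exact congrArg Subtype.val h2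
    · rintro rfl
      exact r.refl x
  · rcases hm with hm | hm
    · right
      ext x y
      rw [Setoid.top_def]
      refine ⟨fun _ => trivial, fun _ => ?_⟩
      have h1 := hc y
      rw [hm, one_mul] at hbm
      rw [← hbm, Nat.card_eq_fintype_card, Fintype.card_subtype] at h1
      have h2 : (univ.filter (fun z => r z y)) = univ := by
        apply Finset.eq_univ_of_card
        rw [h1, Fintype.card_fin]
      have h3 : x ∈ univ.filter (fun z => r z y) := by rw [h2]; exact Finset.mem_univ x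
      exact (Finset.mem_filter.1 h3).2
    · exfalso
      apply h9
      rw [hbm]
      have h3 : 3 ∣ b := by omega
      have h4 : 3 ∣ m := by omega
      exact Nat.mul_dvd_mul h4 h3

end Pool.Agent.Lib.MP_0a3911_co.RG
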