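import Mathlib

/-!
# Generation by 3-elements and by elements of order prime to 3
-/

set_option autoImplicit false

namespace Pool.Agent.Lib.MP_0a3911_co.RG

set_option linter.unusedSectionVars false

variable {Γ : Type*} [Group Γ] [Finite Γ]

/-- the subgroup generated by the elements of `N` of order prime to 3. -/
def genP (N : Subgroup Γ) : Subgroup Γ := Subgroup.closure {a | a ∈ N ∧ ¬ 3 ∣ orderOf a}

/-- the subgroup generated by the elements of `N` of order a power of 3. -/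
def gen3 (N : Subgroup Γ) : Subgroup Γ := Subgroup.closure {a | a ∈ N ∧ ∃ e, a ^ 3 ^ e = 1}

theorem genP_le (N : Subgroup Γ) : genP N ≤ N :=
  (Subgroup.closure_le _).2 (fun _ h => h.1)

theorem gen3_le (N : Subgroup Γ) : gen3 N ≤ N :=
  (Subgroup.closure_le _).2 (fun _ h => h.1)

/-- conjugation invariance. -/
theorem genP_conj {N : Subgroup Γ} {t : Γ} (ht : ∀ a ∈ N, t * a * t⁻¹ ∈ N) :
    ∀ a ∈ genP N, t * a * t⁻¹ ∈ genP N := by
  have h1 : genP N ≤ (genP N).comap (MulAut.conj t).toMonoidHom := by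
    refine (Subgroup.closure_le _).2 (fun a ha => ?_)
    refine Subgroup.subset_closure ⟨ht a ha.1, ?_⟩
    change ¬ 3 ∣ orderOf (t * a * t⁻¹)
    have h2 : orderOf (t * a * t⁻¹) = orderOf a := by
      rw [← MulAut.conj_apply]
      exact MulEquiv.orderOf_eq (MulAut.conj t) a
    rw [h2]
    exact ha.2
  intro a ha
  exact h1 ha

theorem gen3_conj {N : Subgroup Γ} {t : Γ} (ht : ∀ a ∈ N, t * a * t⁻¹ ∈ N) :
    ∀ a ∈ gen3 N, t * a * t⁻¹ ∈ gen3 N := by
  have h1 : gen3 N ≤ (gen3 N).comap (MulAut.conj t).toMonoidHom := by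
    refine (Subgroup.closure_le _).2 (fun a ha => ?_)
    obtain ⟨e, he⟩ := ha.2
    refine Subgroup.subset_closure ⟨ht a ha.1, e, ?_⟩
    change (t * a * t⁻¹) ^ 3 ^ e = 1
    rw [← MulAut.conj_apply, ← map_pow, he, map_one]
  intro a ha
  exact h1 ha

/-- splitting the order. -/
theorem order_split (a : Γ) : ∃ e m : ℕ, ¬ 3 ∣ m ∧ orderOf a = 3 ^ e * m :=
  Nat.exists_eq_pow_mul_and_not_dvd (orderOf_pos a).ne' 3 (by norm_num)

theorem pow_mem_genP {N : Subgroup Γ} {a : Γ} (ha : a ∈ N) : ∃ e : ℕ, a ^ 3 ^ e ∈ genP N := by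
  obtain ⟨e, m, hm, ho⟩ := order_split a
  refine ⟨e, Subgroup.subset_closure ⟨N.pow_mem ha _, ?_⟩⟩
  rw [orderOf_pow_of_dvd (by positivity) (by rw [ho]; exact Nat.dvd_mul_right _ _), ho,
    Nat.mul_div_cancel_left _ (by positivity)]
  exact hm

theorem pow_mem_gen3 {N : Subgroup Γ} {a : Γ} (ha : a ∈ N) :
    ∃ m : ℕ, ¬ 3 ∣ m ∧ a ^ m ∈ gen3 N := by
  obtain ⟨e, m, hm, ho⟩ := order_split a
  refine ⟨m, hm, Subgroup.subset_closure ⟨N.pow_mem ha _, e, ?_⟩⟩
  rw [← pow_mul, mul_comm, ← ho, pow_orderOf_eq_one]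

theorem normal_of {M N : Subgroup Γ} (h : ∀ a ∈ N, ∀ b ∈ M, a * b * a⁻¹ ∈ M) :
    (M.subgroupOf N).Normal := by
  refine ⟨fun b hb a => ?_⟩
  rw [Subgroup.mem_subgroupOf] at hb ⊢
  exact h a.1 a.2 b.1 hb

theorem relIndex_genP (N : Subgroup Γ) : ∃ e, (genP N).relIndex N = 3 ^ e := by
  have : Fact (Nat.Prime 3) := ⟨Nat.prime_three⟩
  have hn : ((genP N).subgroupOf N).Normal :=
    normal_of (fun a ha b hb => genP_conj (fun c hc => N.mul_mem (N.mul_mem ha hc) (N.inv_mem ha))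
      b hb)
  have h1 : IsPGroup 3 (N ⧸ (genP N).subgroupOf N) := by
    intro q
    induction q using QuotientGroup.induction_on with | H a => ?_
    obtain ⟨e, he⟩ := pow_mem_genP a.2
    refine ⟨e, ?_⟩
    rw [← QuotientGroup.mk_pow, QuotientGroup.eq_one_iff, Subgroup.mem_subgroupOf]
    simpa using he
  obtain ⟨e, he⟩ := IsPGroup.iff_card.1 h1
  exact ⟨e, he⟩

theorem relIndex_gen3 (N : Subgroup Γ) : ¬ 3 ∣ (gen3 N).relIndex N := by
  have : Fact (Nat.Prime 3) := ⟨Nat.prime_three⟩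
  have hn : ((gen3 N).subgroupOf N).Normal :=
    normal_of (fun a ha b hb => gen3_conj (fun c hc => N.mul_mem (N.mul_mem ha hc) (N.inv_mem ha))
      b hb)
  intro hdvd
  obtain ⟨q, hq⟩ := exists_prime_orderOf_dvd_card' (G := N ⧸ (gen3 N).subgroupOf N) 3 hdvd
  induction q using QuotientGroup.induction_on with | H a => ?_
  obtain ⟨m, hm, h1⟩ := pow_mem_gen3 a.2
  apply hm
  rw [← hq]
  apply orderOf_dvd_of_pow_eq_one
  rw [← QuotientGroup.mk_pow, QuotientGroup.eq_one_iff, Subgroup.mem_subgroupOf]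
  simpa using h1

theorem genP_le_of {M N : Subgroup Γ} (h : ∀ a ∈ N, ∀ b ∈ M, a * b * a⁻¹ ∈ M) {e : ℕ}
    (hi : M.relIndex N = 3 ^ e) : genP N ≤ M := by
  have hn : (M.subgroupOf N).Normal := normal_of h
  refine (Subgroup.closure_le _).2 (fun a ha => ?_)
  have h1 : ((⟨a, ha.1⟩ : N) : N ⧸ M.subgroupOf N) = 1 := by
    rw [← orderOf_eq_one_iff]
    have h2 : orderOf ((⟨a, ha.1⟩ : N) : N ⧸ M.subgroupOf N) ∣ 3 ^ e := by
      rw [← hi]
      exact orderOf_dvd_natCard _
    have h3 : orderOf ((⟨a, ha.1⟩ : N) : N ⧸ M.subgroupOf N) ∣ orderOf a := by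
      apply orderOf_dvd_of_pow_eq_one
      rw [← QuotientGroup.mk_pow]
      have h4 : (⟨a, ha.1⟩ : N) ^ orderOf a = 1 := Subtype.ext (by simp [pow_orderOf_eq_one])
      rw [h4, QuotientGroup.mk_one]
    have h5 : Nat.Coprime (3 ^ e) (orderOf a) :=
      Nat.Coprime.pow_left e ((Nat.Prime.coprime_iff_not_dvd Nat.prime_three).2 ha.2)
    exact Nat.eq_one_of_dvd_coprimes h5 h2 h3
  rw [QuotientGroup.eq_one_iff, Subgroup.mem_subgroupOf] at h1
  exact h1

theorem gen3_le_of {M N : Subgroup Γ} (h : ∀ a ∈ N, ∀ b ∈ M, a * b * a⁻¹ ∈ M)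
    (hi : ¬ 3 ∣ M.relIndex N) : gen3 N ≤ M := by
  have hn : (M.subgroupOf N).Normal := normal_of h
  refine (Subgroup.closure_le _).2 (fun a ha => ?_)
  obtain ⟨e, he⟩ := ha.2
  have h1 : ((⟨a, ha.1⟩ : N) : N ⧸ M.subgroupOf N) = 1 := by
    rw [← orderOf_eq_one_iff]
    have h2 : orderOf ((⟨a, ha.1⟩ : N) : N ⧸ M.subgroupOf N) ∣ M.relIndex N :=
      orderOf_dvd_natCard _
    have h3 : orderOf ((⟨a, ha.1⟩ : N) : N ⧸ M.subgroupOf N) ∣ 3 ^ e := by
      apply orderOf_dvd_of_pow_eq_one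
      rw [← QuotientGroup.mk_pow]
      have h4 : (⟨a, ha.1⟩ : N) ^ 3 ^ e = 1 := Subtype.ext (by simp [he])
      rw [h4, QuotientGroup.mk_one]
    have h5 : Nat.Coprime (3 ^ e) (M.relIndex N) :=
      Nat.Coprime.pow_left e ((Nat.Prime.coprime_iff_not_dvd Nat.prime_three).2 hi)
    exact Nat.eq_one_of_dvd_coprimes h5 h3 h2
  rw [QuotientGroup.eq_one_iff, Subgroup.mem_subgroupOf] at h1
  exact h1

/-- a nontrivial solvable group is not generated by its 3-elements or not by its elements of order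
prime to 3. -/
theorem solvable_proper {N : Subgroup Γ} [Group.IsSolvable N] (hN : N ≠ ⊥) :
    genP N ≠ N ∨ gen3 N ≠ N := by
  have : Fact (Nat.Prime 3) := ⟨Nat.prime_three⟩
  by_contra hcon
  push Not at hcon
  obtain ⟨hP, h3⟩ := hcon
  have hnt : Nontrivial N := (Subgroup.nontrivial_iff_ne_bot N).2 hN
  have hlt : commutator N < ⊤ := Group.IsSolvable.commutator_lt_top_of_nontrivial N
  -- the commutator subgroup of `N` inside `Γ`
  have hnorm : ∀ a ∈ N, ∀ b ∈ (commutator N).map N.subtype, a * b * a⁻¹ ∈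
      (commutator N).map N.subtype := by
    rintro a ha b ⟨b', hb', rfl⟩
    exact ⟨⟨a, ha⟩ * b' * ⟨a, ha⟩⁻¹, (inferInstance : (commutator N).Normal).conj_mem b' hb' _, rfl⟩
  have hle : (commutator N).map N.subtype ≤ N := by
    rintro _ ⟨b, -, rfl⟩
    exact b.2
  have hne : (commutator N).map N.subtype ≠ N := by
    intro h
    apply hlt.ne
    rw [Subgroup.eq_top_iff']
    intro a
    have h1 : (a : Γ) ∈ (commutator N).map N.subtype := by rw [h]; exact a.2
    obtain ⟨b, hb, hba⟩ := h1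
    have : b = a := Subtype.ext hba
    exact this ▸ hb
  by_cases hdvd : 3 ∣ ((commutator N).map N.subtype).relIndex N
  · -- an element of order 3 in the abelianisation
    have h1 : Nat.card (Abelianization N) = ((commutator N).map N.subtype).relIndex N := by
      rw [Subgroup.relIndex, Subgroup.subgroupOf,
        Subgroup.comap_map_eq_self_of_injective N.subtype_injective]
      rfl
    obtain ⟨q, hq⟩ := exists_prime_orderOf_dvd_card' (G := Abelianization N) 3 (by rw [h1]; exact hdvd)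
    obtain ⟨e, m, hm, hc⟩ := Nat.exists_eq_pow_mul_and_not_dvd
      (n := Nat.card (Abelianization N)) Nat.card_pos.ne' 3 (by norm_num)
    -- the homomorphism `a ↦ a ^ m`
    let φ : N →* Abelianization N := (powMonoidHom m).comp Abelianization.of
    have h2 : genP N ≤ φ.ker.map N.subtype := by
      refine (Subgroup.closure_le _).2 (fun a ha => ?_)
      refine ⟨⟨a, ha.1⟩, ?_, rfl⟩
      change (Abelianization.of (⟨a, ha.1⟩ : N)) ^ m = 1
      have h3 : orderOf (Abelianization.of (⟨a, ha.1⟩ : N)) ∣ orderOf a := by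
        apply orderOf_dvd_of_pow_eq_one
        rw [← map_pow]
        have h4 : (⟨a, ha.1⟩ : N) ^ orderOf a = 1 := Subtype.ext (by simp [pow_orderOf_eq_one])
        rw [h4, map_one]
      have h5 : orderOf (Abelianization.of (⟨a, ha.1⟩ : N)) ∣ 3 ^ e * m := by
        rw [← hc]
        exact orderOf_dvd_natCard _
      have h6 : Nat.Coprime (orderOf (Abelianization.of (⟨a, ha.1⟩ : N))) (3 ^ e) := by
        refine Nat.Coprime.coprime_dvd_left h3 (Nat.Coprime.pow_right e ?_)
        exact ((Nat.Prime.coprime_iff_not_dvd Nat.prime_three).2 ha.2).symm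
      exact orderOf_dvd_iff_pow_eq_one.1 (h6.dvd_of_dvd_mul_left h5)
    rw [hP] at h2
    obtain ⟨a, rfl⟩ : ∃ a : N, Abelianization.of a = q := QuotientGroup.mk_surjective q
    obtain ⟨b, hb, hba⟩ := h2 a.2
    have hba' : b = a := Subtype.ext hba
    rw [hba'] at hb
    have h7 : (Abelianization.of a) ^ m = 1 := hb
    exact hm (hq ▸ orderOf_dvd_of_pow_eq_one h7)
  · have h1 := gen3_le_of hnorm hdvd
    rw [h3] at h1
    exact hne (le_antisymm hle h1)

/-- groups with a subnormal series all of whose indices are powers of 3 or prime to 3. -/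
inductive Sep : Subgroup Γ → Prop
  | bot : Sep ⊥
  | step (M N : Subgroup Γ) (hle : M ≤ N) (hn : ∀ a ∈ N, ∀ b ∈ M, a * b * a⁻¹ ∈ M)
      (hM : Sep M) (hi : (∃ e, M.relIndex N = 3 ^ e) ∨ ¬ 3 ∣ M.relIndex N) : Sep N

theorem Sep.proper {N : Subgroup Γ} (h : Sep N) (hN : N ≠ ⊥) : genP N ≠ N ∨ gen3 N ≠ N := by
  induction h with
  | bot => exact absurd rfl hN
  | step M N hle hn hM hi ih =>
    by_cases hMN : M = N
    · subst hMN
      exact ih hN
    · rcases hi with ⟨e, he⟩ | hi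
      · left
        intro h
        exact hMN (le_antisymm hle (h ▸ genP_le_of hn he))
      · right
        intro h
        exact hMN (le_antisymm hle (h ▸ gen3_le_of hn hi))

theorem Sep.sub {N : Subgroup Γ} (h : Sep N) : ∀ H : Subgroup Γ, H ≤ N → Sep H := by
  induction h with
  | bot =>
    intro H hH
    rw [le_bot_iff.1 hH]
    exact Sep.bot
  | step M N hle hn hM hi ih =>
    intro H hH
    have hn' : (M.subgroupOf N).Normal := normal_of hn
    have hd : (M ⊓ H).relIndex H ∣ M.relIndex N := by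
      rw [Subgroup.inf_relIndex_right, ← Subgroup.relIndex_subgroupOf hH]
      exact Subgroup.relIndex_dvd_index_of_normal _ _
    refine Sep.step (M ⊓ H) H inf_le_right ?_ (ih _ inf_le_left) ?_
    · intro a ha b hb
      exact ⟨hn a (hH ha) b hb.1, H.mul_mem (H.mul_mem ha hb.2) (H.inv_mem ha)⟩
    · rcases hi with ⟨e, he⟩ | hi
      · left
        rw [he] at hd
        obtain ⟨k, -, hk⟩ := (Nat.dvd_prime_pow Nat.prime_three).1 hd
        exact ⟨k, hk⟩
      · right
        exact fun h => hi (h.trans hd)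

end Pool.Agent.Lib.MP_0a3911_co.RG
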