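import Pool.Agent.Lib.MP_0a3911_co.RG.Pair
import Pool.Agent.Lib.MP_0a3911_co.RG.Gen

/-!
# Orbits of 3-separable groups normalised by a uniform family
-/

set_option autoImplicit false

namespace Pool.Agent.Lib.MP_0a3911_co.RG

open Finset

/-- `N` is normalised by the family. -/
def Nrm {ι X : Type*} (g : ι → Equiv.Perm X) (N : Subgroup (Equiv.Perm X)) : Prop :=
  ∀ i, ∀ σ ∈ N, g i * σ * (g i)⁻¹ ∈ N

namespace UF

variable {ι X : Type*} [Fintype ι] [Fintype X] [DecidableEq X] {g : ι → Equiv.Perm X} {i0 : ι}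
  {c : ℕ}

/-- size of the orbit. -/
theorem cls_orbit (N : Subgroup (Equiv.Perm X)) (x : X) :
    cls (MulAction.orbitRel N X) x = Nat.card (MulAction.orbit N x) := by
  classical
  unfold cls
  rw [Nat.card_eq_fintype_card, ← Set.toFinset_card]
  congr 1
  ext z
  simp [MulAction.orbitRel_apply]

theorem orbit_inv {N : Subgroup (Equiv.Perm X)} (hN : Nrm g N) (i : ι) (x y : X)
    (h : MulAction.orbitRel N X x y) : MulAction.orbitRel N X (g i x) (g i y) := by
  rw [MulAction.orbitRel_apply] at h ⊢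
  obtain ⟨σ, rfl⟩ := h
  refine ⟨⟨g i * σ.1 * (g i)⁻¹, hN i σ.1 σ.2⟩, ?_⟩
  change (g i * σ.1 * (g i)⁻¹) (g i y) = g i (σ.1 y)
  simp [Equiv.Perm.mul_apply]

/-- orbit counting. -/
theorem card_orbit_mul (N : Subgroup (Equiv.Perm X)) (x : X) :
    cls (MulAction.orbitRel N X) x * Nat.card (MulAction.stabilizer N x) = Nat.card N := by
  rw [cls_orbit]
  rw [← Nat.card_prod]
  exact Nat.card_congr (MulAction.orbitProdStabilizerEquivGroup N x)

theorem card_stab_dvd {M N : Subgroup (Equiv.Perm X)} (hle : M ≤ N) (x : X) :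
    Nat.card (MulAction.stabilizer M x) ∣ Nat.card (MulAction.stabilizer N x) := by
  let f : MulAction.stabilizer M x →* MulAction.stabilizer N x :=
    { toFun := fun a => ⟨Subgroup.inclusion hle a.1, a.2⟩
      map_one' := rfl
      map_mul' := fun _ _ => rfl }
  apply Subgroup.card_dvd_of_injective f
  intro a b hab
  have h1 : Subgroup.inclusion hle a.1 = Subgroup.inclusion hle b.1 := congrArg Subtype.val hab
  exact Subtype.ext (Subgroup.inclusion_injective hle h1)

theorem main_step (h : UF g i0 c) {M N : Subgroup (Equiv.Perm X)} (hle : M ≤ N) (hM : Nrm g M)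
    (hN : Nrm g N) (x0 : X) : ∃ m : ℕ, (m = 1 ∨ 3 ∣ m) ∧
      cls (MulAction.orbitRel N X) x0 = m * cls (MulAction.orbitRel M X) x0 ∧
      m ∣ M.relIndex N := by
  obtain ⟨m, hm, hc⟩ := h.pair (r1 := MulAction.orbitRel M X) (r2 := MulAction.orbitRel N X)
    (by
      intro x y hxy
      rw [MulAction.orbitRel_apply] at hxy ⊢
      obtain ⟨σ, rfl⟩ := hxy
      exact ⟨⟨σ.1, hle σ.2⟩, rfl⟩) (orbit_inv hM) (orbit_inv hN) x0
  refine ⟨m, hm, hc, ?_⟩
  have h1 := card_orbit_mul M x0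
  have h2 := card_orbit_mul N x0
  obtain ⟨t, ht⟩ := card_stab_dvd hle x0
  have h3 : Nat.card M * M.relIndex N = Nat.card N := by
    have h4 := Subgroup.relIndex_mul_relIndex (⊥ : Subgroup (Equiv.Perm X)) M N bot_le hle
    rwa [Subgroup.relIndex_bot_left, Subgroup.relIndex_bot_left] at h4
  rw [← h2, ← h1, hc, ht] at h3
  have h5 : 0 < cls (MulAction.orbitRel M X) x0 * Nat.card (MulAction.stabilizer M x0) := by
    rw [h1]
    exact Nat.card_pos
  refine ⟨t, ?_⟩
  have h6 : (cls (MulAction.orbitRel M X) x0 * Nat.card (MulAction.stabilizer M x0)) *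
      M.relIndex N = (cls (MulAction.orbitRel M X) x0 * Nat.card (MulAction.stabilizer M x0)) *
      (m * t) := by
    rw [h3]
    ring
  exact Nat.eq_of_mul_eq_mul_left h5 h6

/-- orbits of 3-power length. -/
def Good (N : Subgroup (Equiv.Perm X)) : Prop :=
  ∀ x, ∃ e, cls (MulAction.orbitRel N X) x = 3 ^ e

theorem good_bot : Good (⊥ : Subgroup (Equiv.Perm X)) := by
  intro x
  refine ⟨0, ?_⟩
  rw [cls_orbit, pow_zero, Nat.card_eq_one_iff_unique]
  refine ⟨⟨fun a b => ?_⟩, ⟨⟨x, MulAction.mem_orbit_self x⟩⟩⟩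
  obtain ⟨a, ⟨σ, rfl⟩⟩ := a
  obtain ⟨b, ⟨τ, rfl⟩⟩ := b
  exact Subtype.ext (by rw [Subsingleton.elim σ τ])

theorem good_step (h : UF g i0 c) {M N : Subgroup (Equiv.Perm X)} (hle : M ≤ N) (hM : Nrm g M)
    (hN : Nrm g N) (hi : (∃ e, M.relIndex N = 3 ^ e) ∨ ¬ 3 ∣ M.relIndex N) (hG : Good M) :
    Good N := by
  intro x
  obtain ⟨m, hm, hc, hd⟩ := h.main_step hle hM hN x
  obtain ⟨e, he⟩ := hG x
  rcases hi with ⟨k, hk⟩ | hi
  · rw [hk] at hd
    obtain ⟨j, -, hj⟩ := (Nat.dvd_prime_pow Nat.prime_three).1 hd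
    exact ⟨j + e, by rw [hc, hj, he, pow_add]⟩
  · rcases hm with hm | hm
    · exact ⟨e, by rw [hc, hm, he, one_mul]⟩
    · exact absurd (hm.trans hd) hi

theorem nrm_genP {N : Subgroup (Equiv.Perm X)} (hN : Nrm g N) : Nrm g (genP N) :=
  fun i => genP_conj (hN i)

theorem nrm_gen3 {N : Subgroup (Equiv.Perm X)} (hN : Nrm g N) : Nrm g (gen3 N) :=
  fun i => gen3_conj (hN i)

/-- the induction. -/
theorem good_of (h : UF g i0 c) (P : Subgroup (Equiv.Perm X) → Prop)
    (h1 : ∀ N, P N → N ≠ ⊥ → genP N ≠ N ∨ gen3 N ≠ N) (h2 : ∀ N H, P N → H ≤ N → P H) :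
    ∀ k : ℕ, ∀ N : Subgroup (Equiv.Perm X), Nat.card N ≤ k → P N → Nrm g N → Good N := by
  intro k
  induction k with
  | zero =>
    intro N hk
    have : 0 < Nat.card N := Nat.card_pos
    omega
  | succ k ih =>
    intro N hk hP hN
    by_cases hb : N = ⊥
    · rw [hb]
      exact good_bot
    · have hlt : ∀ H : Subgroup (Equiv.Perm X), H ≤ N → H ≠ N → Nat.card H ≤ k := by
        intro H hle hne
        have h3 : Nat.card H < Nat.card N := by
          refine lt_of_le_of_ne (Subgroup.card_le_of_le hle) (fun h4 => hne ?_)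
          exact Subgroup.eq_of_le_of_card_ge hle h4.ge
        omega
      rcases h1 N hP hb with h3 | h3
      · exact h.good_step (genP_le N) (nrm_genP hN) hN (Or.inl (relIndex_genP N))
          (ih _ (hlt _ (genP_le N) h3) (h2 _ _ hP (genP_le N)) (nrm_genP hN))
      · exact h.good_step (gen3_le N) (nrm_gen3 hN) hN (Or.inr (relIndex_gen3 N))
          (ih _ (hlt _ (gen3_le N) h3) (h2 _ _ hP (gen3_le N)) (nrm_gen3 hN))

theorem good_of_sep (h : UF g i0 c) {N : Subgroup (Equiv.Perm X)} (hN : Nrm g N) (hS : Sep N) :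
    Good N :=
  h.good_of Sep (fun _ hS' hb => hS'.proper hb) (fun _ H hS' hH => hS'.sub H hH) _ N le_rfl hS hN

theorem good_of_solvable (h : UF g i0 c) {N : Subgroup (Equiv.Perm X)} (hN : Nrm g N)
    (hS : Group.IsSolvable N) : Good N := by
  refine h.good_of (fun H => Group.IsSolvable H) (fun H hH hb => ?_) (fun H K hH hK => ?_) _ N
    le_rfl hS hN
  · have := hH
    exact solvable_proper hb
  · have := hH
    exact Group.isSolvable_of_isSolvable_injective (Subgroup.inclusion_injective hK)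

end UF

end Pool.Agent.Lib.MP_0a3911_co.RG
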