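import Pool.Agent.Lib.MP_0a3911_co.RG.Chain
import Pool.Agent.Lib.MP_0a3911_co.VRCount

/-!
# The row group of a van Rees latin square
-/

set_option autoImplicit false

namespace Pool.Agent.Lib.MP_0a3911_co.RG

open Finset

/-- the row group: the group of permutations of the columns generated by all permutations carrying
a row to a row. -/
def rowGroup {n : ℕ} (L : Fin n → Fin n → Fin n) : Subgroup (Equiv.Perm (Fin n)) :=
  Subgroup.closure {τ | ∃ i j, ∀ c, L i (τ c) = L j c}

/-- 3-separable subgroups: there is a chain from the trivial group to `R`, each member normal in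
the next one, with all indices powers of 3 or prime to 3. -/
def Separable3 {Γ : Type*} [Group Γ] (R : Subgroup Γ) : Prop :=
  ∃ (k : ℕ) (N : ℕ → Subgroup Γ), N 0 = ⊥ ∧ N k = R ∧ ∀ j < k, N j ≤ N (j + 1) ∧
    (∀ a ∈ N (j + 1), ∀ b ∈ N j, a * b * a⁻¹ ∈ N j) ∧
    ((∃ e, (N j).relIndex (N (j + 1)) = 3 ^ e) ∨ ¬ 3 ∣ (N j).relIndex (N (j + 1)))

theorem sep_of_separable3 {Γ : Type*} [Group Γ] [Finite Γ] {R : Subgroup Γ}
    (h : Separable3 R) : Sep R := by
  obtain ⟨k, N, h0, hk, hs⟩ := h
  have key : ∀ j ≤ k, Sep (N j) := by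
    intro j
    induction j with
    | zero => intro _; rw [h0]; exact Sep.bot
    | succ j ih =>
      intro hj
      obtain ⟨h1, h2, h3⟩ := hs j (by omega)
      exact Sep.step (N j) (N (j + 1)) h1 h2 (ih (by omega)) h3
  exact hk ▸ key k le_rfl

section latin

variable {n : ℕ} {L : Fin n → Fin n → Fin n}

/-- rows as permutations. -/
noncomputable def rho (hr : ∀ i, Function.Injective (L i)) (i : Fin n) : Equiv.Perm (Fin n) :=
  Equiv.ofBijective (L i) (Finite.injective_iff_bijective.1 (hr i))

theorem rho_apply (hr : ∀ i, Function.Injective (L i)) (i c : Fin n) : rho hr i c = L i c := rfl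

/-- the family attached to the base row `i0`. -/
noncomputable def fam (hr : ∀ i, Function.Injective (L i)) (i0 : Fin n) (j : Fin n) :
    Equiv.Perm (Fin n) := (rho hr i0)⁻¹ * rho hr j

theorem fam_spec (hr : ∀ i, Function.Injective (L i)) (i0 j c : Fin n) :
    L i0 (fam hr i0 j c) = L j c := by
  rw [← rho_apply hr i0, fam, Equiv.Perm.mul_apply, ← Equiv.Perm.mul_apply (rho hr i0),
    mul_inv_cancel, Equiv.Perm.one_apply, rho_apply]

theorem fam_mem (hr : ∀ i, Function.Injective (L i)) (i0 j : Fin n) :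
    fam hr i0 j ∈ rowGroup L :=
  Subgroup.subset_closure ⟨i0, j, fam_spec hr i0 j⟩

/-- all permutations carrying the base row to another row have cube 1. -/
theorem uf_of_cube (hr : ∀ i, Function.Injective (L i))
    (hcol : ∀ j, Function.Injective (fun i => L i j)) (i0 : Fin n)
    (h3 : ∀ j, fam hr i0 j ^ 3 = 1) : UF (fam hr i0) i0 1 := by
  refine ⟨?_, h3, Nat.one_pos, ?_⟩
  · simp [fam]
  · intro x y
    obtain ⟨i, hi⟩ := (Finite.injective_iff_surjective.1 (hcol x)) (L i0 y)
    rw [Finset.card_eq_one]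
    refine ⟨i, ?_⟩
    ext j
    simp only [Finset.mem_filter, Finset.mem_univ, true_and, Finset.mem_singleton]
    constructor
    · intro h
      have h1 : L j x = L i0 y := by rw [← fam_spec hr i0 j x, h]
      exact hcol x (h1.trans hi.symm)
    · rintro rfl
      exact hr i0 (by rw [fam_spec hr]; exact hi)

theorem uf_of_pr (hr : ∀ i, Function.Injective (L i))
    (hcol : ∀ j, Function.Injective (fun i => L i j)) (hP : Pr L) (i0 : Fin n) :
    UF (fam hr i0) i0 1 := by
  refine uf_of_cube hr hcol i0 (fun j => ?_)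
  by_cases hj : j = i0
  · subst hj
    simp [fam]
  · refine Equiv.ext (fun c => ?_)
    obtain ⟨z, c1, c2, e1, e2, e3, -, -, -⟩ := hP i0 j c (Ne.symm hj)
    have f1 : fam hr i0 j c = c1 := hr i0 (by rw [fam_spec hr, e1])
    have f2 : fam hr i0 j c1 = c2 := hr i0 (by rw [fam_spec hr, e2])
    have f3 : fam hr i0 j c2 = c := hr i0 (by rw [fam_spec hr, e3])
    rw [pow_succ, pow_succ, pow_one, Equiv.Perm.mul_apply, Equiv.Perm.mul_apply, f1, f2, f3]
    rfl

/-- the order of a van Rees latin square is odd. -/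
theorem odd_of_pr (hr : ∀ i, Function.Injective (L i))
    (hcol : ∀ j, Function.Injective (fun i => L i j)) (hP : Pr L) (x : Fin n) : n % 2 = 1 := by
  classical
  -- the third row of the subsquare through rows `x`, `y` and column `x`
  have hz : ∀ y, ∃ z, x ≠ y → z ≠ x ∧ z ≠ y ∧
      L z x = L x (fam hr x y (fam hr x y x)) ∧ L y x = L x (fam hr x z (fam hr x z x)) := by
    intro y
    by_cases hxy : x = y
    · exact ⟨y, fun h => absurd hxy h⟩
    · obtain ⟨z, c1, c2, e1, e2, e3, e4, e5, e6⟩ := hP x y x hxy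
      have f1 : fam hr x y x = c1 := hr x (by rw [fam_spec hr, e1])
      have f2 : fam hr x y c1 = c2 := hr x (by rw [fam_spec hr, e2])
      have g1 : fam hr x z x = c2 := hr x (by rw [fam_spec hr, e4])
      have g2 : fam hr x z c2 = c1 := hr x (by rw [fam_spec hr, e6])
      have n2 : c1 ≠ c2 := by
        intro h
        rw [← h] at e2
        exact hxy (hcol c1 e2)
      have n3 : x ≠ c2 := by
        intro h
        rw [← h] at e3
        exact hxy (hcol x e3)
      refine ⟨z, fun _ => ⟨?_, ?_, by rw [f1, f2, e4], by rw [g1, g2, e1]⟩⟩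
      · rintro rfl
        exact n3 (hr z e4)
      · rintro rfl
        rw [e4] at e1
        exact n2 (hr x e1)
  choose zf hzf using hz
  have hsum : ∑ y ∈ univ.erase x, (1 : ZMod 2) = 0 := by
    refine Finset.sum_involution (fun y _ => zf y) ?_ ?_ ?_ ?_
    · intro y _
      decide
    · intro y hy _
      exact (hzf y (Finset.ne_of_mem_erase hy).symm).2.1
    · intro y hy
      exact Finset.mem_erase.2 ⟨(hzf y (Finset.ne_of_mem_erase hy).symm).1, Finset.mem_univ _⟩
    · intro y hy
      have h1 := hzf y (Finset.ne_of_mem_erase hy).symm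
      have h2 := hzf (zf y) h1.1.symm
      exact hcol x (h2.2.2.1.trans h1.2.2.2.symm)
  rw [Finset.sum_const, Finset.card_erase_of_mem (Finset.mem_univ x), Finset.card_univ,
    Fintype.card_fin, nsmul_eq_mul, mul_one, ZMod.natCast_eq_zero_iff] at hsum
  have hpos : 0 < n := x.pos
  omega

end latin

end Pool.Agent.Lib.MP_0a3911_co.RG
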