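import Pool.Agent.Lib.MP_0a3911_co.RG.Uniform

/-!
# Two invariant equivalence relations
-/

set_option autoImplicit false

namespace Pool.Agent.Lib.MP_0a3911_co.RG

open Finset

/-- uniform families: the identity is a member, all members have exponent three and every pair of
points is joined by the same positive number of members. -/
structure UF {ι X : Type*} [Fintype ι] [DecidableEq X] (g : ι → Equiv.Perm X) (i0 : ι) (c : ℕ) :
    Prop where
  one : g i0 = 1
  cube : ∀ i, g i ^ 3 = 1
  pos : 0 < c
  cnt : ∀ x y, (univ.filter (fun i => g i x = y)).card = c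

namespace UF

variable {ι X : Type*} [Fintype ι] [Fintype X] [DecidableEq X] {g : ι → Equiv.Perm X} {i0 : ι}
  {c : ℕ}

theorem cube_apply (h : UF g i0 c) (i : ι) (x : X) : g i (g i (g i x)) = x := by
  have h1 := congrArg (fun e : Equiv.Perm X => e x) (h.cube i)
  simpa [pow_succ, Equiv.Perm.mul_apply] using h1

theorem trans (h : UF g i0 c) (x y : X) : ∃ i, g i x = y := by
  have h1 : 0 < (univ.filter (fun i => g i x = y)).card := by rw [h.cnt]; exact h.pos
  obtain ⟨i, hi⟩ := Finset.card_pos.1 h1
  exact ⟨i, (Finset.mem_filter.1 hi).2⟩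

/-- invariance under `g i` gives invariance under its inverse. -/
theorem inv_iff (h : UF g i0 c) {r : Setoid X} (hr : ∀ i x y, r x y → r (g i x) (g i y)) (i : ι)
    (x y : X) : r x y ↔ r (g i x) (g i y) := by
  refine ⟨hr i x y, fun h1 => ?_⟩
  have h2 := hr i _ _ (hr i _ _ h1)
  rwa [h.cube_apply, h.cube_apply] at h2

open Classical in
/-- size of a class. -/
noncomputable def cls (r : Setoid X) (x : X) : ℕ := (univ.filter (fun z => r z x)).card

open Classical in
theorem cls_eq (h : UF g i0 c) {r : Setoid X} (hr : ∀ i x y, r x y → r (g i x) (g i y))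
    (x y : X) : cls r x = cls r y := by
  obtain ⟨i, hi⟩ := h.trans x y
  unfold cls
  refine Finset.card_bij (fun z _ => g i z) ?_ ?_ ?_
  · intro z hz
    simp only [Finset.mem_filter, Finset.mem_univ, true_and] at hz ⊢
    rw [← hi]
    exact hr i _ _ hz
  · intro a _ b _ hab
    exact (g i).injective hab
  · intro z hz
    simp only [Finset.mem_filter, Finset.mem_univ, true_and] at hz
    refine ⟨(g i).symm z, ?_, by simp⟩
    simp only [Finset.mem_filter, Finset.mem_univ, true_and]
    rw [h.inv_iff hr i, hi]
    simpa using hz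

open Classical in
/-- **Pair lemma.** -/
theorem pair (h : UF g i0 c) {r1 r2 : Setoid X} (h12 : ∀ x y, r1 x y → r2 x y)
    (hr1 : ∀ i x y, r1 x y → r1 (g i x) (g i y)) (hr2 : ∀ i x y, r2 x y → r2 (g i x) (g i y))
    (x0 : X) : ∃ m : ℕ, (m = 1 ∨ 3 ∣ m) ∧ cls r2 x0 = m * cls r1 x0 := by
  let B : Type _ := {x : X // r2 x x0}
  let I : Type _ := {i : ι // r2 (g i x0) x0}
  have hI : ∀ i : I, ∀ x, r2 (g i.1 x) x0 ↔ r2 x x0 := by
    intro i x
    rw [h.inv_iff hr2 i.1 x x0]
    exact ⟨fun h1 => r2.trans h1 (r2.symm i.2), fun h1 => r2.trans h1 i.2⟩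
  let e : I → Equiv.Perm B := fun i => (g i.1).subtypePerm (hI i)
  let s : Setoid B := r1.comap Subtype.val
  let Y : Type _ := Quotient s
  have : Fintype Y := Quotient.fintype s
  let f : I → Equiv.Perm Y := fun i => Quotient.congr (e i) (fun a b => h.inv_iff hr1 i.1 a.1 b.1)
  have hfmk : ∀ (i : I) (x : B), f i (Quotient.mk s x) = Quotient.mk s (e i x) := fun i x => rfl
  have hev : ∀ (i : I) (x : B), ((e i x : B) : X) = g i.1 x.1 := fun i x => rfl
  have hi0 : r2 (g i0 x0) x0 := by rw [h.one]; exact r2.refl x0
  have : Nonempty Y := ⟨Quotient.mk s ⟨x0, r2.refl x0⟩⟩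
  have hmk : ∀ a b : B, Quotient.mk s a = Quotient.mk s b ↔ r1 a.1 b.1 := by
    intro a b
    rw [Quotient.eq]
    rfl
  have hcnt : ∀ a b : Y, (univ.filter (fun i => f i a = b)).card = c * cls r1 x0 := by
    intro a b
    induction a using Quotient.ind with | _ x => ?_
    induction b using Quotient.ind with | _ y => ?_
    have h1 : (univ.filter (fun i => f i (Quotient.mk s x) = Quotient.mk s y)).card
        = (univ.filter (fun i : ι => r1 (g i x.1) y.1)).card := by
      refine Finset.card_bij (fun i _ => i.1) ?_ ?_ ?_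
      · intro i hi
        simp only [Finset.mem_filter, Finset.mem_univ, true_and] at hi ⊢
        rw [hfmk, hmk, hev] at hi
        exact hi
      · intro i _ j _ hij
        exact Subtype.ext hij
      · intro i hi
        simp only [Finset.mem_filter, Finset.mem_univ, true_and] at hi
        have h2 : r2 (g i x0) x0 := by
          have h3 : r2 (g i x.1) (g i x0) := hr2 i _ _ x.2
          exact r2.trans (r2.symm h3) (r2.trans (h12 _ _ hi) y.2)
        refine ⟨⟨i, h2⟩, ?_, rfl⟩
        simp only [Finset.mem_filter, Finset.mem_univ, true_and]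
        rw [hfmk, hmk, hev]
        exact hi
    have h4 : (univ.filter (fun i : ι => r1 (g i x.1) y.1)).card
        = ∑ z ∈ univ.filter (fun z => r1 z y.1), (univ.filter (fun i : ι => g i x.1 = z)).card := by
      rw [Finset.card_eq_sum_card_fiberwise (f := fun i => g i x.1)
        (t := univ.filter (fun z => r1 z y.1))]
      · refine Finset.sum_congr rfl (fun z hz => ?_)
        congr 1
        ext i
        simp only [Finset.mem_filter, Finset.mem_univ, true_and] at hz ⊢
        constructor
        · exact fun h5 => h5.2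
        · intro h5
          refine ⟨?_, h5⟩
          rw [h5]
          exact hz
      · intro i hi
        simp only [Finset.coe_filter, Finset.mem_univ, true_and, Set.mem_ofPred_eq] at hi ⊢
        exact hi
    rw [h1, h4, Finset.sum_congr rfl (fun z _ => h.cnt x.1 z), Finset.sum_const, smul_eq_mul,
      mul_comm, h.cls_eq hr1 x0 y.1]
    rfl
  have key := unif f ⟨i0, hi0⟩ ?_ ?_ (c * cls r1 x0) hcnt
  · refine ⟨Fintype.card Y, key, ?_⟩
    -- the classes of `r1` inside `B`
    have h1 : cls r2 x0 = (univ : Finset B).card := by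
      unfold cls
      rw [Finset.card_univ, Fintype.card_subtype]
    have h2 : (univ : Finset B).card
        = ∑ b ∈ (univ : Finset Y), (univ.filter (fun a : B => Quotient.mk s a = b)).card :=
      Finset.card_eq_sum_card_fiberwise (fun i _ => Finset.mem_coe.2 (Finset.mem_univ _))
    have h3 : ∀ b : Y, (univ.filter (fun a : B => Quotient.mk s a = b)).card = cls r1 x0 := by
      intro b
      induction b using Quotient.ind with | _ y => ?_
      rw [h.cls_eq hr1 x0 y.1]
      unfold cls
      refine Finset.card_bij (fun a _ => a.1) ?_ ?_ ?_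
      · intro a ha
        simp only [Finset.mem_filter, Finset.mem_univ, true_and] at ha ⊢
        exact (hmk _ _).1 ha
      · intro a _ b _ hab
        exact Subtype.ext hab
      · intro z hz
        simp only [Finset.mem_filter, Finset.mem_univ, true_and] at hz
        refine ⟨⟨z, r2.trans (h12 _ _ hz) y.2⟩, ?_, rfl⟩
        simp only [Finset.mem_filter, Finset.mem_univ, true_and]
        exact (hmk _ _).2 hz
    rw [h1, h2, Finset.sum_congr rfl (fun b _ => h3 b), Finset.sum_const, smul_eq_mul,
      Finset.card_univ]
  · refine Equiv.ext (fun a => ?_)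
    induction a using Quotient.ind with | _ x => ?_
    rw [hfmk]
    simp only [Equiv.Perm.coe_one, id_eq]
    rw [hmk, hev]
    simp only [h.one, Equiv.Perm.coe_one, id_eq]
    first
      | done
      | exact r1.refl _
  · intro i
    refine Equiv.ext (fun a => ?_)
    induction a using Quotient.ind with | _ x => ?_
    rw [pow_succ, pow_succ, pow_one, Equiv.Perm.mul_apply, Equiv.Perm.mul_apply, hfmk, hfmk, hfmk]
    simp only [Equiv.Perm.coe_one, id_eq]
    rw [hmk, hev, hev, hev, h.cube_apply]

end UF

end Pool.Agent.Lib.MP_0a3911_co.RG
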