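import Pool.Agent.Lib.MP_0a3911_co.RG.Main

/-!
# Chains of partitions invariant under the row group
-/

set_option autoImplicit false

namespace Pool.Agent.Lib.MP_0a3911_co.RG

open Finset

variable {n : ℕ} {L : Fin n → Fin n → Fin n}

/-- two nested invariant partitions. -/
theorem rel_pair (hn : 0 < n) (hr : ∀ i, Function.Injective (L i))
    (hcol : ∀ j, Function.Injective (fun i => L i j)) (hP : Pr L) {r1 r2 : Setoid (Fin n)}
    (h12 : r1 ≤ r2) (hinv1 : ∀ τ ∈ rowGroup L, ∀ x y, r1 x y → r1 (τ x) (τ y))
    (hinv2 : ∀ τ ∈ rowGroup L, ∀ x y, r2 x y → r2 (τ x) (τ y)) :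
    ∃ m : ℕ, (m = 1 ∨ m % 6 = 3) ∧
      ∀ x, Nat.card {y : Fin n // r2 y x} = m * Nat.card {y : Fin n // r1 y x} := by
  have x0 : Fin n := ⟨0, hn⟩
  have hU := uf_of_pr hr hcol hP x0
  have hi1 : ∀ i x y, r1 x y → r1 (fam hr x0 i x) (fam hr x0 i y) :=
    fun i x y h => hinv1 _ (fam_mem hr x0 i) x y h
  have hi2 : ∀ i x y, r2 x y → r2 (fam hr x0 i x) (fam hr x0 i y) :=
    fun i x y h => hinv2 _ (fam_mem hr x0 i) x y h
  obtain ⟨m, hm, e⟩ := hU.pair (r1 := r1) (r2 := r2) (fun x y h => h12 h) hi1 hi2 x0
  obtain ⟨m2, -, e2⟩ := hU.pair (r1 := r2) (r2 := ⊤)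
    (by intro x y _; exact trivial) hi2
    (by intro i x y _; exact trivial) x0
  rw [cls_top, e] at e2
  have hodd := odd_of_pr hr hcol hP x0
  refine ⟨m, ?_, fun x => ?_⟩
  · rcases hm with h | h
    · exact Or.inl h
    · right
      have h1 : m % 2 = 1 := by
        rcases Nat.even_or_odd m with h1 | h1
        · have h2 : Even (m2 * (m * UF.cls r1 x0)) := (h1.mul_right _).mul_left m2
          rw [← e2, Nat.even_iff] at h2
          omega
        · exact Nat.odd_iff.1 h1
      omega
  · rw [← cls_card, ← cls_card, hU.cls_eq hi2 x x0, hU.cls_eq hi1 x x0, e]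

/-- a chain of invariant partitions. -/
theorem chain (hn : 0 < n) (hr : ∀ i, Function.Injective (L i))
    (hcol : ∀ j, Function.Injective (fun i => L i j)) (hP : Pr L) (k : ℕ)
    (r : ℕ → Setoid (Fin n)) (hlt : ∀ j < k, r j < r (j + 1))
    (hinv : ∀ j ≤ k, ∀ τ ∈ rowGroup L, ∀ x y, r j x y → r j (τ x) (τ y)) : 3 ^ k ∣ n := by
  classical
  have x0 : Fin n := ⟨0, hn⟩
  have key : ∀ j ≤ k, 3 ^ j ∣ Nat.card {y : Fin n // r j y x0} := by
    intro j
    induction j with
    | zero => intro _; simp
    | succ j ih =>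
      intro hj
      obtain ⟨m, hm, e⟩ := rel_pair hn hr hcol hP (hlt j (by omega)).le (hinv j (by omega))
        (hinv (j + 1) hj)
      have h3 : 3 ∣ m := by
        rcases hm with h | h
        · exfalso
          apply (hlt j (by omega)).ne
          apply le_antisymm (hlt j (by omega)).le
          intro x y hxy
          have h1 := e y
          rw [h, one_mul, Nat.card_eq_fintype_card, Nat.card_eq_fintype_card,
            Fintype.card_subtype, Fintype.card_subtype] at h1
          have h2 : (univ.filter fun z => r j z y) = univ.filter fun z => r (j + 1) z y := by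
            apply Finset.eq_of_subset_of_card_le
            · intro z hz
              simp only [Finset.mem_filter, Finset.mem_univ, true_and] at hz ⊢
              exact (hlt j (by omega)).le hz
            · exact h1.le
          have h3 : x ∈ univ.filter fun z => r (j + 1) z y := by
            simpa using hxy
          rw [← h2] at h3
          simpa using h3
        · omega
      rw [e x0, pow_succ, mul_comm]
      exact Nat.mul_dvd_mul h3 (ih (by omega))
  obtain ⟨m, -, e⟩ := rel_pair hn hr hcol hP (r1 := r k) (r2 := ⊤) le_top (hinv k le_rfl)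
    (by intro τ _ x y _; exact trivial)
  have h1 : Nat.card {y : Fin n // (⊤ : Setoid (Fin n)) y x0} = n := by
    rw [← cls_card, cls_top]
  rw [← h1, e x0]
  exact (key k le_rfl).mul_left m

end Pool.Agent.Lib.MP_0a3911_co.RG
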