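import Mathlib

/-!
# Uniform families of permutations of exponent three

`unif`: a uniform family of permutations of order dividing three that contains the identity can
live only on a set whose size is 1 or a multiple of three.
`pair`: consequence for two invariant equivalence relations `r₁ ≤ r₂`.
-/

set_option autoImplicit false

namespace Pool.Agent.Lib.MP_0a3911_co.RG

open Finset

/-- a permutation of exponent three of a set whose size is not a multiple of three has a fixed
point. -/
theorem exists_fixed {X : Type*} [Fintype X] [DecidableEq X] (f : Equiv.Perm X) (h3 : f ^ 3 = 1)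
    (hX : ¬ 3 ∣ Fintype.card X) : 1 ≤ (univ.filter (fun x => f x = x)).card := by
  have : Fact (Nat.Prime 3) := ⟨Nat.prime_three⟩
  by_contra hcon
  have h0 : (univ.filter (fun x => f x = x)).card = 0 := by omega
  have h1 : f.supportᶜ.card ≡ Fintype.card X [MOD 3] :=
    Equiv.Perm.card_compl_support_modEq (p := 3) (n := 1) (by simpa using h3)
  have h2 : f.supportᶜ = univ.filter (fun x => f x = x) := by
    ext x
    simp
  rw [h2, h0] at h1
  exact hX ((Nat.modEq_zero_iff_dvd).1 h1.symm)

/-- the counting lemma. -/
theorem unif {ι X : Type*} [Fintype ι] [Fintype X] [DecidableEq X] [Nonempty X]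
    (f : ι → Equiv.Perm X) (i0 : ι) (h0 : f i0 = 1) (h3 : ∀ i, f i ^ 3 = 1) (c : ℕ)
    (hc : ∀ x y, (univ.filter (fun i => f i x = y)).card = c) :
    Fintype.card X = 1 ∨ 3 ∣ Fintype.card X := by
  classical
  by_contra hcon
  push Not at hcon
  obtain ⟨hne, hdvd⟩ := hcon
  -- the number of indices
  have hι : Fintype.card ι = Fintype.card X * c := by
    obtain ⟨x⟩ := ‹Nonempty X›
    have h1 : (univ : Finset ι).card = ∑ y ∈ (univ : Finset X), (univ.filter (fun i => f i x = y)).card :=
      Finset.card_eq_sum_card_fiberwise (fun i _ => Finset.mem_coe.2 (Finset.mem_univ _))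
    rw [Finset.sum_congr rfl (fun y _ => hc x y), Finset.sum_const, smul_eq_mul,
      Finset.card_univ, Finset.card_univ] at h1
    exact h1
  -- the number of fixed points
  have hfix : ∑ i : ι, (univ.filter (fun x => f i x = x)).card = Fintype.card X * c := by
    have h1 : ∑ i : ι, (univ.filter (fun x => f i x = x)).card
        = ∑ x : X, (univ.filter (fun i => f i x = x)).card := by
      simp only [Finset.card_filter]
      exact Finset.sum_comm
    rw [h1, Finset.sum_congr rfl (fun x _ => hc x x), Finset.sum_const, smul_eq_mul,
      Finset.card_univ]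
  have h4 : (univ.filter (fun x => f i0 x = x)).card = Fintype.card X := by
    rw [h0]
    simp
  have h5 : ∑ i : ι, (univ.filter (fun x => f i x = x)).card
      = (univ.filter (fun x => f i0 x = x)).card
        + ∑ i ∈ univ.erase i0, (univ.filter (fun x => f i x = x)).card :=
    (Finset.add_sum_erase _ _ (Finset.mem_univ i0)).symm
  have h6 : (univ.erase i0).card ≤ ∑ i ∈ univ.erase i0, (univ.filter (fun x => f i x = x)).card := by
    rw [Finset.card_eq_sum_ones]
    exact Finset.sum_le_sum (fun i _ => exists_fixed (f i) (h3 i) hdvd)
  rw [Finset.card_erase_of_mem (Finset.mem_univ i0), Finset.card_univ] at h6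
  have h7 : 0 < Fintype.card ι := Fintype.card_pos_iff.2 ⟨i0⟩
  have h8 : 0 < Fintype.card X := Fintype.card_pos
  omega

end Pool.Agent.Lib.MP_0a3911_co.RG
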